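import Pool.Agent.Helper63.EQ.Defs
import Pool.Agent.Helper99.MS.Contra

/-!
# Project EQ (MP_a499ba_nt), block Z5: moments of the kernel
-/

set_option autoImplicit false

namespace Pool.Agent.Helper8.EQ2

open MeasureTheory Set Filter Topology
open Pool.Agent.Helper99.MS

theorem XX_far {t : ℝ} (ht : 1 ≤ |t|) : XX t ≤ -(|t| / 4) := by
  rcases le_total 0 t with h | h
  · rw [abs_of_nonneg h] at ht ⊢
    have := XX_le_sq_pos h
    nlinarith
  · rw [abs_of_nonpos h] at ht ⊢
    unfold XX
    have h1 : Real.exp (-1) * (2 + t) ≤ Real.exp t := by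
      have h2 := Real.add_one_le_exp (t + 1)
      have h3 : Real.exp t = Real.exp (-1) * Real.exp (t + 1) := by
        rw [← Real.exp_add]
        congr 1
        ring
      rw [h3]
      exact mul_le_mul_of_nonneg_left (by linarith) (Real.exp_pos _).le
    have h4 : (1 / 3 : ℝ) ≤ Real.exp (-1) := by
      rw [Real.exp_neg, one_div]
      exact inv_anti₀ (Real.exp_pos _) (by linarith [Real.exp_one_lt_d9])
    have h5 : Real.exp (-1) ≤ 1 / 2 := by
      rw [Real.exp_neg, one_div]
      exact inv_anti₀ (by norm_num) (by linarith [Real.exp_one_gt_d9])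
    rcases le_total 0 (2 + t) with h6 | h6
    · nlinarith [mul_le_mul_of_nonneg_right h4 h6]
    · nlinarith [mul_le_mul_of_nonpos_right h5 h6]

/-- Z5: moments of the kernel -/
theorem EE_mom : ∃ C : ℝ, 0 ≤ C ∧ ∀ m : ℝ, 64 ≤ m →
    Integrable (fun t : ℝ => Real.exp (-(t / 2)) * EE m t * ell t) ∧
    ∫ t : ℝ, Real.exp (-(t / 2)) * EE m t * ell t ≤ C / √m ∧
    ∫ t in (Icc (-1:ℝ) 1)ᶜ, Real.exp (-(t / 2)) * EE m t * ell t ≤ C * Real.exp (-(m / 16)) := by
  have hI : Integrable fun t : ℝ => Real.exp (-10 * |t|) :=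
    Pool.Agent.Helper13.Mob.integrable_exp_abs (by norm_num)
  set I0 : ℝ := ∫ t : ℝ, Real.exp (-10 * |t|) with hI0
  have hI00 : 0 ≤ I0 := integral_nonneg fun t => (Real.exp_pos _).le
  refine ⟨30 + 16 * I0, by positivity, fun m hm => ?_⟩
  have hm0 : 0 < m := by linarith
  have hpos : ∀ t, 0 ≤ Real.exp (-(t / 2)) * EE m t * ell t := fun t =>
    mul_nonneg (mul_nonneg (Real.exp_pos _).le (EE_pos m t).le) (ell_nonneg t)
  have hnear : ∀ t : ℝ, |t| ≤ 1 → Real.exp (-(t / 2)) * EE m t * ell t ≤ 4 * Real.exp (-(m / 4) * t ^ 2) := by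
    intro t ht
    have h1 : Real.exp (-(t / 2)) ≤ 2 := by
      have h2 : Real.exp (-(t / 2)) ≤ Real.exp (1 / 2) := Real.exp_le_exp.2 (by linarith [(abs_le.1 ht).1])
      have h3 : Real.exp (1 / 2) ≤ 2 := by
        have h4 := Real.exp_bound_div_one_sub_of_interval (x := 1 / 2) (by norm_num) (by norm_num)
        norm_num at h4 ⊢
        exact h4
      linarith
    have h5 : ell t ≤ 2 := (ell_le_linear t).trans (by linarith)
    have h6 : EE m t ≤ Real.exp (-(m / 4) * t ^ 2) := by
      unfold EE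
      refine Real.exp_le_exp.2 ?_
      nlinarith [XX_le_sq ht]
    calc Real.exp (-(t / 2)) * EE m t * ell t ≤ 2 * Real.exp (-(m / 4) * t ^ 2) * 2 :=
          mul_le_mul (mul_le_mul h1 h6 (EE_pos m t).le (by norm_num)) h5 (ell_nonneg t) (by positivity)
      _ = _ := by ring
  have hfar : ∀ t : ℝ, 1 ≤ |t| → Real.exp (-(t / 2)) * EE m t * ell t ≤ Real.exp (-(m / 16)) * Real.exp (-10 * |t|) := by
    intro t ht
    have h1 : Real.exp (-(t / 2)) ≤ Real.exp (|t| / 2) := Real.exp_le_exp.2 (by linarith [neg_abs_le t])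
    have h2 : EE m t ≤ Real.exp (-(m / 4) * |t|) := by
      unfold EE
      refine Real.exp_le_exp.2 ?_
      nlinarith [XX_far ht]
    have h3 : ell t ≤ Real.exp |t| := (ell_le_linear t).trans (by linarith [Real.add_one_le_exp |t|])
    calc Real.exp (-(t / 2)) * EE m t * ell t ≤ Real.exp (|t| / 2) * Real.exp (-(m / 4) * |t|) * Real.exp |t| :=
          mul_le_mul (mul_le_mul h1 h2 (EE_pos m t).le (Real.exp_pos _).le) h3 (ell_nonneg t) (by positivity)
      _ = Real.exp (|t| / 2 + -(m / 4) * |t| + |t|) := by rw [Real.exp_add, Real.exp_add]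
      _ ≤ Real.exp (-(m / 16) + -10 * |t|) := by
          refine Real.exp_le_exp.2 ?_
          nlinarith [mul_le_mul_of_nonneg_left ht (by linarith : 0 ≤ m - 64)]
      _ = _ := by rw [Real.exp_add]
  have hG : Integrable fun t : ℝ => 4 * Real.exp (-(m / 4) * t ^ 2) := (integrable_exp_neg_mul_sq (by positivity)).const_mul 4
  have hE : Integrable fun t : ℝ => Real.exp (-(m / 16)) * Real.exp (-10 * |t|) := hI.const_mul _
  have hall : ∀ t : ℝ, Real.exp (-(t / 2)) * EE m t * ell t ≤
      4 * Real.exp (-(m / 4) * t ^ 2) + Real.exp (-(m / 16)) * Real.exp (-10 * |t|) := by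
    intro t
    rcases le_total |t| 1 with h | h
    · have := hnear t h
      have h0 : 0 ≤ Real.exp (-(m / 16)) * Real.exp (-10 * |t|) := by positivity
      linarith
    · have := hfar t h
      have h0 : 0 ≤ 4 * Real.exp (-(m / 4) * t ^ 2) := by positivity
      linarith
  have hmeas : AEStronglyMeasurable (fun t : ℝ => Real.exp (-(t / 2)) * EE m t * ell t) volume := by
    refine Continuous.aestronglyMeasurable (Continuous.mul (Continuous.mul (by fun_prop) ?_) ell_cont)
    unfold EE XX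
    fun_prop
  have hint : Integrable (fun t : ℝ => Real.exp (-(t / 2)) * EE m t * ell t) := by
    refine (hG.add hE).mono' hmeas (Filter.Eventually.of_forall fun t => ?_)
    rw [Real.norm_of_nonneg (hpos t)]
    exact hall t
  refine ⟨hint, ?_, ?_⟩
  · have h1 : ∫ t : ℝ, Real.exp (-(t / 2)) * EE m t * ell t ≤
        ∫ t : ℝ, (4 * Real.exp (-(m / 4) * t ^ 2) + Real.exp (-(m / 16)) * Real.exp (-10 * |t|)) :=
      integral_mono hint (hG.add hE) hall
    rw [integral_add hG hE, integral_const_mul, integral_const_mul, integral_gaussian, ← hI0] at h1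
    refine h1.trans ?_
    have hsm : 0 < √m := Real.sqrt_pos.2 hm0
    have h2 : √(Real.pi / (m / 4)) ≤ 4 / √m := by
      rw [show Real.pi / (m / 4) = (4 * Real.pi) / m by field_simp, Real.sqrt_div (by positivity)]
      refine div_le_div_of_nonneg_right ?_ hsm.le
      rw [Real.sqrt_le_left (by norm_num)]
      linarith [Real.pi_lt_d2]
    have h3 : Real.exp (-(m / 16)) ≤ 16 / √m := by
      have h4 : Real.exp (-(m / 16)) ≤ 16 / m := by
        rw [Real.exp_neg, le_div_iff₀ hm0, inv_mul_le_iff₀ (Real.exp_pos _)]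
        linarith [Real.add_one_le_exp (m / 16)]
      refine h4.trans (div_le_div_of_nonneg_left (by norm_num) hsm ?_)
      rw [Real.sqrt_le_left hm0.le]
      nlinarith
    have h5 : Real.exp (-(m / 16)) * I0 ≤ 16 / √m * I0 := mul_le_mul_of_nonneg_right h3 hI00
    calc 4 * √(Real.pi / (m / 4)) + Real.exp (-(m / 16)) * I0 ≤ 4 * (4 / √m) + 16 / √m * I0 := by linarith
      _ = (16 + 16 * I0) / √m := by ring
      _ ≤ (30 + 16 * I0) / √m := div_le_div_of_nonneg_right (by linarith) hsm.le
  · have h1 : ∫ t in (Icc (-1:ℝ) 1)ᶜ, Real.exp (-(t / 2)) * EE m t * ell t ≤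
        ∫ t in (Icc (-1:ℝ) 1)ᶜ, Real.exp (-(m / 16)) * Real.exp (-10 * |t|) := by
      refine setIntegral_mono_on hint.integrableOn hE.integrableOn measurableSet_Icc.compl fun t ht => hfar t ?_
      by_contra h
      exact ht (abs_le.1 (not_le.1 h).le)
    refine h1.trans ?_
    have h2 : ∫ t in (Icc (-1:ℝ) 1)ᶜ, Real.exp (-(m / 16)) * Real.exp (-10 * |t|) ≤ Real.exp (-(m / 16)) * I0 := by
      rw [hI0, ← integral_const_mul]
      exact setIntegral_le_integral hE (Filter.Eventually.of_forall fun t => by positivity)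
    refine h2.trans ?_
    rw [mul_comm]
    exact mul_le_mul_of_nonneg_right (by linarith) (Real.exp_pos _).le

end Pool.Agent.Helper8.EQ2
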